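import Pool.Agent.MP_c69980_ag.H43.Spec1

/-!
Constants are linearly disjoint from a differential subfield.
-/

set_option autoImplicit false

namespace Pool.Agent.MP_c69980_ag.H43

open MvPolynomial H60 Finset

lemma ld_li (K : Subfield ℂ) {κ : Type} (v : κ → ℂ) : LinearIndependent K v ↔
    ∀ (s : Finset κ) (g : κ → ℂ), (∀ i ∈ s, g i ∈ K) → ∑ i ∈ s, g i * v i = 0 →
      ∀ i ∈ s, g i = 0 := by
  classical
  rw [linearIndependent_iff']
  refine ⟨fun h s g h1 h2 i hi => ?_,
    fun h s g h1 i hi => Subtype.ext (h s (fun i => g i) (fun i _ => (g i).2) h1 i hi)⟩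
  have := h s (fun i => if e : g i ∈ K then ⟨g i, e⟩ else 0)
    ((sum_congr rfl fun j hj => by rw [dif_pos (h1 j hj)]; rfl).trans h2) i hi
  rw [dif_pos (h1 i hi)] at this
  exact congrArg Subtype.val this

lemma ld_ai (K : Subfield ℂ) {ι : Type} (x : ι → ℂ) : AlgebraicIndependent K x ↔
    LinearIndependent K fun d : ι →₀ ℕ => d.prod fun i n => x i ^ n := by
  have : (fun d : ι →₀ ℕ => d.prod fun i n => x i ^ n) =
      (aeval x : MvPolynomial ι K →ₐ[K] ℂ).toLinearMap ∘ basisMonomials ι K := by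
    funext d
    simp [aeval_monomial]
  rw [this, LinearIndependent, Finsupp.linearCombination_linear_comp, LinearMap.coe_comp,
    Function.Injective.of_comp_iff' _ ⟨(basisMonomials ι K).linearIndependent, fun p =>
      ⟨_, (basisMonomials ι K).linearCombination_repr p⟩⟩]
  rfl

lemma ld_core {Δ : Set Der} {L F : Subfield ℂ} (h1 : ∀ D ∈ Δ, Pres D L)
    (h2 : ∀ x ∈ L, (∀ D ∈ Δ, D x = 0) → x ∈ F) {κ : Type} {v : κ → ℂ}
    (hv : ∀ i, ∀ D ∈ Δ, D (v i) = 0) (h : LinearIndependent F v) : LinearIndependent L v := by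
  classical
  rw [ld_li] at h ⊢
  intro s
  induction s using Finset.induction_on with
  | empty => simp
  | insert a s ha ih =>
    intro g hg e
    by_cases c : g a = 0
    · rw [sum_insert ha, c, zero_mul, zero_add] at e
      exact forall_mem_insert _ _ _ |>.2 ⟨c, ih g (fun i hi => hg i (mem_insert_of_mem hi)) e⟩
    have m : ∀ i ∈ insert a s, g i / g a ∈ L := fun i hi =>
      div_mem (hg i hi) (hg a (mem_insert_self _ _))
    have e' : ∑ i ∈ insert a s, g i / g a * v i = 0 := by
      simp only [div_mul_eq_mul_div, ← sum_div, e, zero_div]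
    refine absurd (h _ _ (fun i hi => h2 _ (m i hi) fun D hD => ?_) e' a (mem_insert_self _ _))
      (div_ne_zero c c)
    rcases mem_insert.1 hi with rfl | hi
    · rw [div_self c, D.map_one_eq_zero]
    refine ih (fun i => D (g i / g a)) (fun i hi => h1 D hD _ (m i (mem_insert_of_mem hi))) ?_ i hi
    have := congrArg D e'
    rw [sum_insert ha, div_self c, one_mul, map_add, hv a D hD, zero_add, map_sum, map_zero] at this
    refine (sum_congr rfl fun j _ => ?_).trans this
    rw [D.leibniz, hv j D hD, smul_zero, zero_add, smul_eq_mul, mul_comm]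

/-- The constants. -/
def ldC (Δ : Set Der) : Submonoid ℂ where
  carrier := {c | ∀ D ∈ Δ, D c = 0}
  one_mem' D _ := D.map_one_eq_zero
  mul_mem' ha hb D hD := by rw [D.leibniz, ha D hD, hb D hD, smul_zero, smul_zero, add_zero]

lemma ld_den (s : Set ℂ) {g : ℂ} (h : g ∈ Subfield.closure s) :
    ∃ z ∈ Subring.closure s, z ≠ 0 ∧ z * g ∈ Subring.closure s := by
  obtain ⟨y, hy, z, hz, rfl⟩ := Subfield.mem_closure_iff.1 h
  by_cases c : z = 0
  · exact ⟨1, one_mem _, one_ne_zero, by simp [c]⟩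
  · exact ⟨z, hz, c, by rwa [mul_div_cancel₀ _ c]⟩

lemma ld_swap {Δ : Set Der} {L F : Subfield ℂ} (h1 : ∀ D ∈ Δ, Pres D L) (hF : F ≤ L)
    (h2 : ∀ x ∈ L, (∀ D ∈ Δ, D x = 0) → x ∈ F) {κ : Type} {m : κ → ℂ} (hm : ∀ i, m i ∈ L)
    (h : LinearIndependent F m) :
    LinearIndependent (Subfield.closure (F ∪ ldC Δ : Set ℂ)) m := by
  classical
  rw [ld_li] at h ⊢
  intro s g hg e i hi
  choose! z hz h0 hzg using fun i (hi : i ∈ s) => ld_den _ (hg i hi)
  obtain ⟨b, hb, hs, hl⟩ := exists_linearIndependent F (ldC Δ : Set ℂ)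
  have hp : ∀ a ∈ s, ∃ f : b →₀ F, (f.sum fun j c => c • (j : ℂ)) = (∏ i ∈ s, z i) * g a := by
    intro a ha
    rw [← Finsupp.mem_span_range_iff_exists_finsupp, Subtype.range_coe, hs,
      ← Submonoid.closure_eq (ldC Δ), ← Algebra.adjoin_eq_span, ← prod_erase_mul _ _ ha, mul_assoc]
    refine (Subring.closure_le (t := (Algebra.adjoin F (ldC Δ : Set ℂ)).toSubring)).2
      (Set.union_subset (fun c hc => Subalgebra.algebraMap_mem _ (⟨c, hc⟩ : F))
        Algebra.subset_adjoin)
      (mul_mem (prod_mem fun j hj => hz j (mem_of_mem_erase hj)) (hzg a ha))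
  choose! f hf using hp
  have key := (ld_li L _).1 (ld_core h1 h2 (fun j : b => hb j.2) hl)
    (s.biUnion fun a => (f a).support) (fun j => ∑ a ∈ s, f a j * m a)
    (fun j _ => sum_mem fun a _ => mul_mem (hF (f a j).2) (hm a)) (by
      simp only [sum_mul]
      rw [sum_comm, ← mul_zero (∏ i ∈ s, z i), ← e, mul_sum]
      refine sum_congr rfl fun a ha => ?_
      rw [← mul_assoc, ← hf a ha, Finsupp.sum_of_support_subset _
        (subset_biUnion_of_mem (fun a => (f a).support) ha) (fun j c => c • (j : ℂ))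
        fun _ _ => zero_smul _ _, sum_mul]
      exact sum_congr rfl fun j _ => mul_right_comm _ _ _)
  have : f i = 0 := Finsupp.ext fun j => by_contra fun c => c (Subtype.ext
    (h s (fun a => f a j) (fun a _ => (f a j).2)
      (key j (mem_biUnion.2 ⟨i, hi, Finsupp.mem_support_iff.2 c⟩)) i hi))
  have e' := hf i hi
  rw [this, Finsupp.sum_zero_index] at e'
  exact (mul_eq_zero.1 e'.symm).resolve_left (prod_ne_zero_iff.2 h0)

theorem sLd : SLd := by
  intro Δ L F h1 hF h2 ι x hx
  rw [ld_ai] at hx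
  exact ⟨fun h => (ld_ai _ _).2 (ld_core h1 h2
    (fun d => (ldC Δ).prod_mem fun i _ => (ldC Δ).pow_mem (h i) _) hx),
    fun h => (ld_ai _ _).2 (ld_swap h1 hF h2 (fun d => prod_mem fun i _ => pow_mem (h i) _) hx)⟩

end Pool.Agent.MP_c69980_ag.H43
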